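import Pool.Agent.Lib.MP_60a66a_gt.Defs
import Pool.Agent.Lib.MP_60a66a_gt.Assemble

set_option autoImplicit false

open Set
open scoped ContDiff InnerProductSpace

namespace Pool.Agent.Results.MP_60a66a_gt.NonAnalytic

open Pool.Agent.Lib.MP60a66a

/-- **Negative answer.** There are a bounded simply connected plane domain `D` and a Riemannian
metric `g` of class `C^∞` on the whole plane, locally Euclidean on `D`, such that for every
injective isometric immersion `r` of class `C¹` of `(D, g)` into Euclidean 3-space the image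
`r(D)` fails to be a real-analytic surface at some point `r(z)`; in fact no neighbourhood `U` of
`z` in `D` has an image that lies, near `r(z)`, in a real-analytic surface. -/
theorem result : ∃ (D : Set (ℝ × ℝ)) (g : PlaneMetric),
    IsOpen D ∧ Bornology.IsBounded D ∧ IsSimplyConnected D ∧
    g.IsSmoothRiemannian ∧ g.IsLocallyEuclideanOn D ∧
    ∀ r : ℝ × ℝ → EuclideanSpace ℝ (Fin 3), g.IsInjectiveIsometricImmersion D r →
      ∃ z ∈ D, ¬ IsAnalyticSurfaceAt (r '' D) (r z) ∧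
        ∀ U ⊆ D, IsOpen U → z ∈ U → ¬ LiesInAnalyticSurfaceAt (r '' U) (r z) := by
  refine ⟨DD, gg, DD_open, DD_bounded, DD_simplyConnected, gg_smooth, gg_locEuclid, ?_⟩
  intro r hr
  obtain ⟨z, hz, hn⟩ := main r hr
  refine ⟨z, hz, ?_, ?_⟩
  · rintro ⟨O, f, hO, hzO, hf, hdf, hS⟩
    refine hn ⟨DD, O, f, DD_open, hz, hO, hzO, hf, hdf, ?_⟩
    intro w hw hwO
    have h1 : r w ∈ (r '' DD) ∩ O := ⟨⟨w, hw, rfl⟩, hwO⟩
    rw [hS] at h1
    exact h1.2
  · rintro U - hU hzU ⟨O, f, hO, hzO, hf, hdf, hS⟩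
    exact hn ⟨U, O, f, hU, hzU, hO, hzO, hf, hdf, fun w hw hwO => hS _ ⟨⟨w, hw, rfl⟩, hwO⟩⟩

end Pool.Agent.Results.MP_60a66a_gt.NonAnalytic
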